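import Pool.Agent.GBC.RCounter

/-!
# MP_a8efab_gt, Q1: the area Penrose inequality for the Gauss-Bonnet-Chern mass fails

Let `Ax = (-x₂, x₁, 0, …, 0)` be the rotation field of the first two coordinates of `ℝⁿ`, `n ≥ 5`.
Every metric `g_ij = δ_ij + C(x) (Ax)_i (Ax)_j` has `L₂ = 0`. With
`Q(x) = (|x|² + 1)² - 4 |Ax|²` take `C` with
`1 + |Ax|² C = 1 + θ(Q) (c₁ |x|² |Ax|^(2(n-4)) / Q^(n-2) - 1)`, where `θ` is a cutoff supported in
`[1/16, 3/4]` which is `1` on `[1/8, 1/2]`. The exterior region is `M = {Q ≥ 1/4}`; its boundary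
`Σ = {Q = 1/4}` is a ring `S^(n-2) × S¹`. It is calibrated by the field
`Q^(-(n-1)/2) P^((n-4)/2) grad Q`, with `P = |Ax|² + h(Q) Q`, whose divergence is `≥ 0` and is `0`
near `Σ`. The metric is Euclidean for `|x| ≥ 2`, so its mass is zero.
-/

namespace Pool.Agent.Results.MP_a8efab_gt.AllDimDisproof

open MeasureTheory Metric Set
open Pool.Agent.GBC

/-- In every dimension `n ≥ 5` there are a metric `g` on `ℝⁿ`, Euclidean outside a compact set and
with `L₂ = 0`, and a connected exterior region `M = {x | c ≤ ρ x}` with compact smooth boundary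
`Σ = {x | ρ x = c}`, such that `Σ` is an area outer minimizing horizon and the mass `m₂` is zero,
so that `m₂ < 1/4 (|Σ| / ω_{n-1})^((n-4)/(n-1))`. -/
theorem result (n : ℕ) (h5 : 5 ≤ n) :
    ∃ (g : MetricField n) (ρ : E n → ℝ) (c : ℝ), IsMetric g ∧ IsExteriorRegion ρ c ∧
      (∃ R : ℝ, ∀ x, R ≤ ‖x‖ → g x = 1) ∧
      (∀ τ, IsAF g τ) ∧
      (∀ x, gaussBonnet g x = 0) ∧
      IsOuterMinHorizon g ρ c ∧
      IsGBCMass g 0 ∧
      area g {x | ρ x < c} ≠ ⊤ ∧
      0 < 1 / 4 * ((area g {x | ρ x < c}).toReal / omega n) ^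
        (((n : ℝ) - 4) / ((n : ℝ) - 1)) :=
  counterexample_all n h5

end Pool.Agent.Results.MP_a8efab_gt.AllDimDisproof
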